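import Pool.Agent.Helper69.ISO.End
import Pool.Agent.Helper69.ISO.K0
import Pool.Agent.Helper69.ISO.K123
import Pool.Agent.Helper53.ISO.O8

/-!
# MP_7c9036_mp: `-3` is an isolated point of the spectrum of the Laplacian of the rhombic Penrose
tilings, so the spectrum is not a Cantor set
-/

set_option autoImplicit false

namespace Pool.Agent.Results.MP_7c9036_mp.IsolatedPoint

open Pool.Agent.Helper79.PN Pool.Agent.Helper69.ISO

/-- Nonsingular parameters `θ` exist, and for each of them the graph Laplacian `H` of the rhombic Penrose tiling with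
parameter `θ` exists, is unique and self-adjoint; `-3` is an eigenvalue of infinite multiplicity and an isolated
point of the spectrum, there is spectrum above `-3` and below `-16/5` and none in `[-16/5, -3)`; so the spectrum is
not perfect. -/
theorem result : (∃ θ : ℂ, NonSing θ) ∧ ∀ θ : ℂ, NonSing θ →
    ∃ H : Op θ, IsLapl H ∧ (∀ H' : Op θ, IsLapl H' → H' = H) ∧ SelfAdj H ∧
      (∀ n : ℕ, ∃ ψ : Fin n → Hl θ, LinearIndependent ℂ ψ ∧ ∀ i, H (ψ i) = (-3 : ℂ) • ψ i) ∧
      (∃ s : ℝ, 0 < s ∧ ∀ E : ℝ, |E + 3| < s → (InSpec H E ↔ E = -3)) ∧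
      (∃ E : ℝ, -3 < E ∧ InSpec H E) ∧ (∀ E : ℝ, -16 / 5 ≤ E → E < -3 → ¬ InSpec H E) ∧
      (∃ E : ℝ, E < -16 / 5 ∧ InSpec H E) ∧ ¬ Perfect {E : ℝ | InSpec H E} :=
  final (gap_above K0 Chk.K1 Chk.K2 Chk.K3)
    (Pool.Agent.Helper53.ISO.st_O8 fin_PEN fin_NBX fin_OPX fin_EGA fin_DEN)

end Pool.Agent.Results.MP_7c9036_mp.IsolatedPoint
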